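import Mathlib

open Filter Topology
open scoped ENNReal

namespace Pool.Agent.Results.MP_6095cf_an.NotPartiallyGreedy

section Defs

variable {𝕜 : Type*} [RCLike 𝕜] {E : Type*} [NormedAddCommGroup E] [NormedSpace 𝕜 E]

/-- `(x_n)` is a Schauder basis (in particular a semi-normalized Markushevich basis) with
coordinate functionals `(f_n)`. -/
structure IsSchauderBasis (x : ℕ → E) (f : ℕ → StrongDual 𝕜 E) : Prop where
  dense : (Submodule.span 𝕜 (Set.range x)).topologicalClosure = ⊤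
  biorth : ∀ i j, f i (x j) = if i = j then 1 else 0
  total : ∀ v : E, (∀ n, f n v = 0) → v = 0
  seminormalized : ∃ c C : ℝ, 0 < c ∧ ∀ n, c ≤ ‖x n‖ ∧ ‖x n‖ ≤ C ∧ ‖f n‖ ≤ C
  partial_sums : ∃ C : ℝ, ∀ (m : ℕ) (v : E), ‖∑ i ∈ Finset.range m, f i v • x i‖ ≤ C * ‖v‖

/-- `A` is a greedy set for `v`. -/
def IsGreedySet (f : ℕ → StrongDual 𝕜 E) (v : E) (A : Finset ℕ) : Prop :=
  ∀ i ∈ A, ∀ k, k ∉ A → ‖f k v‖ ≤ ‖f i v‖

/-- `(x_n)` is `𝐧`-quasi-greedy. -/
def IsQuasiGreedyAlong (n : ℕ → ℕ) (x : ℕ → E) (f : ℕ → StrongDual 𝕜 E) : Prop :=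
  ∃ C : ℝ, ∀ (v : E) (l : ℕ) (A : Finset ℕ), A.card = n l → IsGreedySet f v A →
    ‖∑ i ∈ A, f i v • x i‖ ≤ C * ‖v‖

/-- `(x_n)` is `𝐧`-partially greedy. -/
def IsPartiallyGreedyAlong (n : ℕ → ℕ) (x : ℕ → E) (f : ℕ → StrongDual 𝕜 E) : Prop :=
  ∃ C : ℝ, ∀ (v : E) (l : ℕ) (A : Finset ℕ), A.card = n l → IsGreedySet f v A →
    ‖v - ∑ i ∈ A, f i v • x i‖ ≤ C * ‖v - ∑ i ∈ Finset.range (n l), f i v • x i‖

/-- `(x_n)` is `𝐧`-order-conservative, even with arbitrary unimodular signs. Indices start at `0`,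
so that `A ≤ n < B` reads: `i < n` on `A` and `n ≤ i` on `B`. -/
def IsOrderConservativeAlong (𝕜 : Type*) [RCLike 𝕜] {E : Type*} [NormedAddCommGroup E]
    [NormedSpace 𝕜 E] (n : ℕ → ℕ) (x : ℕ → E) : Prop :=
  ∃ C : ℝ, ∀ (A B : Finset ℕ) (ε δ : ℕ → 𝕜) (l : ℕ), A.card = B.card → (∀ i ∈ A, i < n l) →
    (∀ i ∈ B, n l ≤ i) → (∀ i, ‖ε i‖ = 1) → (∀ i, ‖δ i‖ = 1) →
      ‖∑ i ∈ A, ε i • x i‖ ≤ C * ‖∑ i ∈ B, δ i • x i‖

end Defs

/-! ### The sequence -/

/-- `s_j = (j+1)!`. -/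
def s (j : ℕ) : ℕ := (j + 1).factorial
/-- `n_j = s_j²`. -/
def nn (j : ℕ) : ℕ := s j * s j
/-- `k_j = s_j s_{j+1}`. -/
def kk (j : ℕ) : ℕ := s j * s (j + 1)

theorem s_pos (j : ℕ) : 0 < s j := Nat.factorial_pos _

theorem s_succ (j : ℕ) : s (j + 1) = (j + 2) * s j := Nat.factorial_succ _

theorem two_s (j : ℕ) : 2 * s j ≤ s (j + 1) := by
  rw [s_succ]
  exact Nat.mul_le_mul_right _ (by omega)

theorem s_le_succ (j : ℕ) : s j ≤ s (j + 1) := by
  have := two_s j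
  omega

theorem s_mono {i j : ℕ} (h : i ≤ j) : s i ≤ s j := monotone_nat_of_le_succ s_le_succ h

theorem nn_mono {i j : ℕ} (h : i ≤ j) : nn i ≤ nn j := Nat.mul_le_mul (s_mono h) (s_mono h)

theorem nn_strictMono : StrictMono nn := by
  apply strictMono_nat_of_lt_succ
  intro j
  unfold nn
  have h1 := two_s j
  have h2 := s_pos j
  nlinarith

theorem nn_gap (j : ℕ) : nn (j + 1) + 2 * kk j ≤ nn (j + 2) := by
  unfold nn kk
  have h1 := two_s (j + 1)
  have h2 := s_le_succ j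
  have h3 : s (j + 1 + 1) = s (j + 2) := rfl
  rw [h3] at h1
  nlinarith

theorem kk_le (j : ℕ) : kk j ≤ nn (j + 1) := Nat.mul_le_mul_right _ (s_le_succ j)

/-! ### Items -/

section Items
variable {𝕜 : Type*} [RCLike 𝕜]

/-- The items of level `j`: pair sums on `[n_{j+1}, n_{j+1} + 2 k_j)` and single coordinates
after that. -/
def item (j q : ℕ) (y : ℕ → 𝕜) : 𝕜 :=
  if q < kk j then y (nn (j + 1) + 2 * q) + y (nn (j + 1) + 2 * q + 1)
  else y (nn (j + 1) + kk j + q)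

/-- The item to which a coordinate belongs. -/
def own (j i : ℕ) : ℕ :=
  if i - nn (j + 1) < 2 * kk j then (i - nn (j + 1)) / 2 else i - nn (j + 1) - kk j

theorem own_pair0 {j q : ℕ} (h : q < kk j) : own j (nn (j + 1) + 2 * q) = q := by
  unfold own
  rw [if_pos (by omega)]
  omega

theorem own_pair1 {j q : ℕ} (h : q < kk j) : own j (nn (j + 1) + 2 * q + 1) = q := by
  unfold own
  rw [if_pos (by omega)]
  omega

theorem own_single {j q : ℕ} (h : kk j ≤ q) : own j (nn (j + 1) + kk j + q) = q := by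
  unfold own
  rw [if_neg (by omega)]
  omega

theorem item_add (j q : ℕ) (y z : ℕ → 𝕜) : item j q (y + z) = item j q y + item j q z := by
  unfold item
  split_ifs
  · simp only [Pi.add_apply]; ring
  · rfl

theorem item_smul (j q : ℕ) (c : 𝕜) (y : ℕ → 𝕜) : item j q (c • y) = c * item j q y := by
  unfold item
  split_ifs
  · simp only [Pi.smul_apply, smul_eq_mul]; ring
  · rfl

/-- An item of a function vanishing off `A` is zero unless it is owned by a member of `A`. -/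
theorem item_eq_zero {j q : ℕ} {y : ℕ → 𝕜} {A : Finset ℕ} (hy : ∀ i, i ∉ A → y i = 0)
    (hq : q ∉ (A.filter (fun i => nn (j + 1) ≤ i)).image (own j)) : item j q y = 0 := by
  have key : ∀ i, nn (j + 1) ≤ i → own j i = q → y i = 0 := by
    intro i hi ho
    apply hy
    intro hiA
    exact hq (Finset.mem_image.mpr ⟨i, Finset.mem_filter.mpr ⟨hiA, hi⟩, ho⟩)
  unfold item
  split_ifs with h
  · rw [key _ (by omega) (own_pair0 h), key _ (by omega) (own_pair1 h), add_zero]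
  · exact key _ (by omega) (own_single (by omega))

theorem item_norm_le {j q : ℕ} {y : ℕ → 𝕜} {c : ℝ} (hc : 0 ≤ c) (hy : ∀ i, ‖y i‖ ≤ c) :
    ‖item j q y‖ ≤ 2 * c := by
  unfold item
  split_ifs
  · refine (norm_add_le _ _).trans ?_
    linarith [hy (nn (j + 1) + 2 * q), hy (nn (j + 1) + 2 * q + 1)]
  · linarith [hy (nn (j + 1) + kk j + q)]

/-- Sum of items of a function supported on `A` and bounded by `c`. -/
theorem sum_items_le {j : ℕ} {y : ℕ → 𝕜} {A P : Finset ℕ} {c : ℝ} (hc : 0 ≤ c)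
    (hy0 : ∀ i, i ∉ A → y i = 0) (hy : ∀ i, ‖y i‖ ≤ c) :
    ∑ q ∈ P, ‖item j q y‖ ≤ 2 * c * (min P.card (A.filter (fun i => nn (j + 1) ≤ i)).card : ℕ) := by
  classical
  set O := (A.filter (fun i => nn (j + 1) ≤ i)).image (own j) with hO
  have h1 : ∑ q ∈ P, ‖item j q y‖ ≤ ∑ q ∈ P, (if q ∈ O then 2 * c else 0) := by
    refine Finset.sum_le_sum (fun q _ => ?_)
    by_cases hq : q ∈ O
    · rw [if_pos hq]; exact item_norm_le hc hy
    · rw [if_neg hq, item_eq_zero hy0 hq, norm_zero]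
  refine h1.trans ?_
  rw [Finset.sum_ite_mem, Finset.sum_const, nsmul_eq_mul, mul_comm]
  apply mul_le_mul_of_nonneg_left _ (by positivity)
  have h2 : (P ∩ O).card ≤ min P.card (A.filter (fun i => nn (j + 1) ≤ i)).card := by
    apply le_min
    · exact Finset.card_le_card Finset.inter_subset_left
    · exact (Finset.card_le_card Finset.inter_subset_right).trans Finset.card_image_le
  exact_mod_cast h2

end Items

/-! ### The space -/

variable (𝕜 : Type) [RCLike 𝕜]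

/-- The Hilbert space `ℓ²`. -/
abbrev L2 : Type := lp (fun _ : ℕ => 𝕜) 2

/-- Index set of the norming functionals. -/
def Lam : Type := {p : ℕ × Finset ℕ × (ℕ → 𝕜) // p.2.1.card ≤ kk p.1 ∧ ∀ q, ‖p.2.2 q‖ ≤ 1}

/-- The ambient space. -/
def Amb : Type := L2 𝕜 × lp (fun _ : Lam 𝕜 => 𝕜) ∞

noncomputable instance : NormedAddCommGroup (Amb 𝕜) :=
  inferInstanceAs (NormedAddCommGroup (L2 𝕜 × lp (fun _ : Lam 𝕜 => 𝕜) ∞))

noncomputable instance : NormedSpace 𝕜 (Amb 𝕜) :=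
  inferInstanceAs (NormedSpace 𝕜 (L2 𝕜 × lp (fun _ : Lam 𝕜 => 𝕜) ∞))

instance : CompleteSpace (Amb 𝕜) :=
  inferInstanceAs (CompleteSpace (L2 𝕜 × lp (fun _ : Lam 𝕜 => 𝕜) ∞))

/-- First component. -/
noncomputable def p1 : Amb 𝕜 →L[𝕜] L2 𝕜 := ContinuousLinearMap.fst 𝕜 (L2 𝕜) _
/-- Second component. -/
noncomputable def p2 : Amb 𝕜 →L[𝕜] lp (fun _ : Lam 𝕜 => 𝕜) ∞ := ContinuousLinearMap.snd 𝕜 (L2 𝕜) _

theorem norm_amb (v : Amb 𝕜) : ‖v‖ = max ‖p1 𝕜 v‖ ‖p2 𝕜 v‖ := Prod.norm_def v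

/-- The norming functionals. -/
noncomputable def ph (l : Lam 𝕜) (y : ℕ → 𝕜) : 𝕜 :=
  (((1 / (s l.1.1 : ℝ)) : ℝ) : 𝕜) * ∑ q ∈ l.1.2.1, l.1.2.2 q * item l.1.1 q y

theorem ph_add (l : Lam 𝕜) (y z : ℕ → 𝕜) : ph 𝕜 l (y + z) = ph 𝕜 l y + ph 𝕜 l z := by
  unfold ph
  rw [← mul_add, ← Finset.sum_add_distrib]
  congr 1
  refine Finset.sum_congr rfl (fun q _ => ?_)
  rw [item_add]; ring

theorem ph_smul (l : Lam 𝕜) (c : 𝕜) (y : ℕ → 𝕜) : ph 𝕜 l (c • y) = c * ph 𝕜 l y := by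
  unfold ph
  rw [mul_left_comm]
  congr 1
  rw [Finset.mul_sum]
  refine Finset.sum_congr rfl (fun q _ => ?_)
  rw [item_smul]; ring

theorem ph_norm_le (l : Lam 𝕜) (y : ℕ → 𝕜) :
    ‖ph 𝕜 l y‖ ≤ 1 / (s l.1.1 : ℝ) * ∑ q ∈ l.1.2.1, ‖item l.1.1 q y‖ := by
  unfold ph
  rw [norm_mul, RCLike.norm_ofReal, abs_of_nonneg (by positivity)]
  gcongr
  refine (norm_sum_le _ _).trans (Finset.sum_le_sum (fun q _ => ?_))
  rw [norm_mul]
  calc ‖l.1.2.2 q‖ * ‖item l.1.1 q y‖ ≤ 1 * ‖item l.1.1 q y‖ := by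
        gcongr
        exact l.2.2 q
    _ = _ := one_mul _

theorem single_norm_le (i k : ℕ) : ‖(Pi.single i (1 : 𝕜) : ℕ → 𝕜) k‖ ≤ 1 := by
  by_cases h : k = i
  · subst h; simp
  · simp [h]

theorem ph_single_le (l : Lam 𝕜) (i : ℕ) : ‖ph 𝕜 l (Pi.single i 1)‖ ≤ 2 := by
  refine (ph_norm_le 𝕜 l _).trans ?_
  have h1 := sum_items_le (j := l.1.1) (y := (Pi.single i (1 : 𝕜) : ℕ → 𝕜)) (A := {i})
    (P := l.1.2.1) zero_le_one (fun k hk => by
      have : k ≠ i := by simpa using hk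
      simp [this]) (single_norm_le 𝕜 i)
  have h2 : (min l.1.2.1.card (({i} : Finset ℕ).filter (fun k => nn (l.1.1 + 1) ≤ k)).card : ℕ) ≤ 1 :=
    (min_le_right _ _).trans ((Finset.card_filter_le _ _).trans (by simp))
  have h3 : ((min l.1.2.1.card (({i} : Finset ℕ).filter
    (fun k => nn (l.1.1 + 1) ≤ k)).card : ℕ) : ℝ) ≤ 1 := by exact_mod_cast h2
  have h4 : (1 : ℝ) ≤ s l.1.1 := by exact_mod_cast s_pos _
  have h5 : 1 / (s l.1.1 : ℝ) ≤ 1 := by
    rw [div_le_one (by linarith)]; exact h4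
  have h6 : 0 ≤ 1 / (s l.1.1 : ℝ) := by positivity
  calc 1 / (s l.1.1 : ℝ) * ∑ q ∈ l.1.2.1, ‖item l.1.1 q (Pi.single i (1 : 𝕜) : ℕ → 𝕜)‖
      ≤ 1 * 2 := by
        apply mul_le_mul h5 _ (Finset.sum_nonneg (fun _ _ => norm_nonneg _)) zero_le_one
        linarith
    _ = 2 := by norm_num

/-- The basis vectors in the ambient space. -/
noncomputable def xv (i : ℕ) : Amb 𝕜 :=
  ((lp.single 2 i (1 : 𝕜) : L2 𝕜),
    (⟨fun l => ph 𝕜 l (Pi.single i 1), memℓp_infty ⟨2, by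
      rintro _ ⟨l, rfl⟩
      exact ph_single_le 𝕜 l i⟩⟩ : lp (fun _ : Lam 𝕜 => 𝕜) ∞))

theorem p1_xv (i k : ℕ) : (p1 𝕜 (xv 𝕜 i)) k = (Pi.single i (1 : 𝕜) : ℕ → 𝕜) k := by
  show (lp.single 2 i (1 : 𝕜) : L2 𝕜) k = _
  rw [lp.single_apply]

theorem p2_xv (i : ℕ) (l : Lam 𝕜) : (p2 𝕜 (xv 𝕜 i)) l = ph 𝕜 l (p1 𝕜 (xv 𝕜 i)) := by
  have h : (fun k => (p1 𝕜 (xv 𝕜 i)) k) = (Pi.single i (1 : 𝕜) : ℕ → 𝕜) := by
    funext k; exact p1_xv 𝕜 i k
  show ph 𝕜 l (Pi.single i 1) = ph 𝕜 l (fun k => (p1 𝕜 (xv 𝕜 i)) k)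
  rw [h]

/-- The subspace on which the second component is determined by the first. -/
def Rel : Submodule 𝕜 (Amb 𝕜) where
  carrier := {v | ∀ l : Lam 𝕜, (p2 𝕜 v) l = ph 𝕜 l (p1 𝕜 v)}
  add_mem' := by
    intro a b ha hb l
    have h1 : (p2 𝕜 (a + b)) l = (p2 𝕜 a) l + (p2 𝕜 b) l := by rw [map_add]; rfl
    have h2 : (⇑(p1 𝕜 (a + b)) : ℕ → 𝕜) = ⇑(p1 𝕜 a) + ⇑(p1 𝕜 b) := by rw [map_add]; rfl
    rw [h1, h2, ph_add, ha l, hb l]
  zero_mem' := by
    intro l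
    have h1 : (p2 𝕜 0) l = 0 := by rw [map_zero]; rfl
    have h2 : (⇑(p1 𝕜 (0 : Amb 𝕜)) : ℕ → 𝕜) = (0 : 𝕜) • (0 : ℕ → 𝕜) := by
      rw [map_zero, zero_smul]; rfl
    rw [h1, h2, ph_smul, zero_mul]
  smul_mem' := by
    intro c a ha l
    have h1 : (p2 𝕜 (c • a)) l = c * (p2 𝕜 a) l := by rw [map_smul]; rfl
    have h2 : (⇑(p1 𝕜 (c • a)) : ℕ → 𝕜) = c • ⇑(p1 𝕜 a) := by rw [map_smul]; rfl
    rw [h1, h2, ph_smul, ha l]

theorem ph_continuous (l : Lam 𝕜) : Continuous (fun y : L2 𝕜 => ph 𝕜 l y) := by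
  have hev : ∀ k, Continuous (fun y : L2 𝕜 => y k) := fun k =>
    (lp.evalCLM 𝕜 (fun _ : ℕ => 𝕜) 2 k).continuous
  unfold ph
  apply Continuous.mul continuous_const
  apply continuous_finsetSum
  intro q _
  apply Continuous.mul continuous_const
  unfold item
  by_cases h : q < kk l.1.1
  · simp only [h, if_true]
    exact (hev _).add (hev _)
  · simp only [h, if_false]
    exact hev _

theorem isClosed_Rel : IsClosed (Rel 𝕜 : Set (Amb 𝕜)) := by
  have : (Rel 𝕜 : Set (Amb 𝕜)) = ⋂ l : Lam 𝕜, {v | (p2 𝕜 v) l = ph 𝕜 l (p1 𝕜 v)} := by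
    ext v
    simp only [Set.mem_iInter]
    rfl
  rw [this]
  apply isClosed_iInter
  intro l
  apply isClosed_eq
  · exact (lp.evalCLM 𝕜 (fun _ : Lam 𝕜 => 𝕜) ∞ l).continuous.comp (p2 𝕜).continuous
  · exact (ph_continuous 𝕜 l).comp (p1 𝕜).continuous

/-- The space. -/
noncomputable def X : Submodule 𝕜 (Amb 𝕜) := (Submodule.span 𝕜 (Set.range (xv 𝕜))).topologicalClosure

theorem X_le_Rel : X 𝕜 ≤ Rel 𝕜 := by
  apply Submodule.topologicalClosure_minimal
  · rw [Submodule.span_le]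
    rintro _ ⟨i, rfl⟩
    exact p2_xv 𝕜 i
  · exact isClosed_Rel 𝕜

instance : CompleteSpace (X 𝕜) :=
  (Submodule.isClosed_topologicalClosure (Submodule.span 𝕜 (Set.range (xv 𝕜)))).completeSpace_coe

/-- The coordinates of a vector of the space. -/
noncomputable def co (v : X 𝕜) : ℕ → 𝕜 := fun k => (p1 𝕜 (v : Amb 𝕜)) k

theorem norm_X (v : X 𝕜) : ‖v‖ = max ‖p1 𝕜 (v : Amb 𝕜)‖ ‖p2 𝕜 (v : Amb 𝕜)‖ := norm_amb 𝕜 _

theorem p1_le (v : X 𝕜) : ‖p1 𝕜 (v : Amb 𝕜)‖ ≤ ‖v‖ := by rw [norm_X]; exact le_max_left _ _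

theorem co_le (v : X 𝕜) (k : ℕ) : ‖co 𝕜 v k‖ ≤ ‖v‖ :=
  (lp.norm_apply_le_norm (by norm_num) _ _).trans (p1_le 𝕜 v)

/-- Upper estimate for the norm. -/
theorem norm_le (v : X 𝕜) {R : ℝ} (h1 : ‖p1 𝕜 (v : Amb 𝕜)‖ ≤ R)
    (h2 : ∀ (j : ℕ) (P : Finset ℕ), P.card ≤ kk j → 1 / (s j : ℝ) * ∑ q ∈ P, ‖item j q (co 𝕜 v)‖ ≤ R) :
    ‖v‖ ≤ R := by
  have hR : 0 ≤ R := (norm_nonneg _).trans h1
  rw [norm_X]
  refine max_le h1 (lp.norm_le_of_forall_le hR (fun l => ?_))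
  have h3 : (p2 𝕜 (v : Amb 𝕜)) l = ph 𝕜 l (co 𝕜 v) := X_le_Rel 𝕜 v.2 l
  rw [h3]
  exact (ph_norm_le 𝕜 l _).trans (h2 _ _ l.2.1)

/-- Lower estimate for the norm. -/
theorem le_norm (v : X 𝕜) {j : ℕ} {P : Finset ℕ} (hP : P.card ≤ kk j) :
    1 / (s j : ℝ) * ∑ q ∈ P, ‖item j q (co 𝕜 v)‖ ≤ ‖v‖ := by
  have hs : ∀ q, ∃ e : 𝕜, ‖e‖ ≤ 1 ∧ e * item j q (co 𝕜 v) = (‖item j q (co 𝕜 v)‖ : 𝕜) := by
    intro q
    by_cases h0 : item j q (co 𝕜 v) = 0
    · exact ⟨0, by simp, by simp [h0]⟩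
    · refine ⟨(‖item j q (co 𝕜 v)‖ : 𝕜) / item j q (co 𝕜 v), ?_, ?_⟩
      · rw [norm_div]; simp [h0]
      · field_simp
  choose e he1 he2 using hs
  let l : Lam 𝕜 := ⟨(j, P, e), hP, he1⟩
  have h3 : (p2 𝕜 (v : Amb 𝕜)) l = ph 𝕜 l (co 𝕜 v) := X_le_Rel 𝕜 v.2 l
  have h4 : ph 𝕜 l (co 𝕜 v) = ((1 / (s j : ℝ) * ∑ q ∈ P, ‖item j q (co 𝕜 v)‖ : ℝ) : 𝕜) := by
    unfold ph
    rw [RCLike.ofReal_mul, RCLike.ofReal_sum]
    congr 1
    exact Finset.sum_congr rfl (fun q _ => he2 q)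
  have h5 : ‖(p2 𝕜 (v : Amb 𝕜)) l‖ ≤ ‖v‖ := by
    refine (lp.norm_apply_le_norm (by simp) _ _).trans ?_
    rw [norm_X]; exact le_max_right _ _
  rw [h3, h4, RCLike.norm_ofReal, abs_of_nonneg (by positivity)] at h5
  exact h5

theorem xv_mem (n : ℕ) : xv 𝕜 n ∈ X 𝕜 :=
  Submodule.le_topologicalClosure _ (Submodule.subset_span ⟨n, rfl⟩)

/-- The basis. -/
noncomputable def x (n : ℕ) : X 𝕜 := ⟨xv 𝕜 n, xv_mem 𝕜 n⟩

/-- The coordinate functionals. -/
noncomputable def f (n : ℕ) : StrongDual 𝕜 (X 𝕜) :=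
  ((lp.evalCLM 𝕜 (fun _ : ℕ => 𝕜) 2 n).comp (p1 𝕜)).comp (X 𝕜).subtypeL

theorem f_apply (n : ℕ) (v : X 𝕜) : f 𝕜 n v = co 𝕜 v n := rfl

theorem co_x (n k : ℕ) : co 𝕜 (x 𝕜 n) k = if k = n then 1 else 0 := by
  show (p1 𝕜 (xv 𝕜 n)) k = _
  rw [p1_xv, Pi.single_apply]

theorem co_sum (A : Finset ℕ) (c : ℕ → 𝕜) (k : ℕ) :
    co 𝕜 (∑ i ∈ A, c i • x 𝕜 i) k = if k ∈ A then c k else 0 := by
  rw [← f_apply, map_sum]
  simp only [map_smul, f_apply, co_x, smul_eq_mul, mul_ite, mul_one, mul_zero]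
  rw [Finset.sum_ite_eq]

theorem norm_p1_sum (A : Finset ℕ) (c : ℕ → 𝕜) :
    ‖p1 𝕜 ((∑ i ∈ A, c i • x 𝕜 i : X 𝕜) : Amb 𝕜)‖ ^ 2 = ∑ i ∈ A, ‖c i‖ ^ 2 := by
  have h1 : p1 𝕜 ((∑ i ∈ A, c i • x 𝕜 i : X 𝕜) : Amb 𝕜) = ∑ i ∈ A, lp.single 2 i (c i) := by
    apply lp.ext
    funext k
    have h2 : (p1 𝕜 ((∑ i ∈ A, c i • x 𝕜 i : X 𝕜) : Amb 𝕜)) k = if k ∈ A then c k else 0 :=
      co_sum 𝕜 A c k
    rw [h2, lp.coeFn_sum, Finset.sum_apply]
    simp only [lp.single_apply, Pi.single_apply]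
    rw [Finset.sum_ite_eq]
  rw [h1]
  have h3 := lp.norm_sum_single (p := 2) (by norm_num) (fun i => c i) A
  have h4 : (2 : ENNReal).toReal = ((2 : ℕ) : ℝ) := by norm_num
  simp only [h4, Real.rpow_natCast] at h3
  exact h3

theorem sum_sq_le (A : Finset ℕ) (v : X 𝕜) : ∑ i ∈ A, ‖co 𝕜 v i‖ ^ 2 ≤ ‖v‖ ^ 2 := by
  have h4 : (2 : ENNReal).toReal = ((2 : ℕ) : ℝ) := by norm_num
  have h3 := lp.sum_rpow_le_norm_rpow (p := 2) (by norm_num) (p1 𝕜 (v : Amb 𝕜)) A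
  simp only [h4, Real.rpow_natCast] at h3
  exact h3.trans (pow_le_pow_left₀ (norm_nonneg _) (p1_le 𝕜 v) 2)

theorem norm_p1_proj (A : Finset ℕ) (v : X 𝕜) :
    ‖p1 𝕜 ((∑ i ∈ A, f 𝕜 i v • x 𝕜 i : X 𝕜) : Amb 𝕜)‖ ≤ ‖v‖ := by
  apply le_of_sq_le_sq _ (norm_nonneg _)
  rw [norm_p1_sum]
  exact sum_sq_le 𝕜 A v


theorem co_proj (A : Finset ℕ) (v : X 𝕜) (k : ℕ) :
    co 𝕜 (∑ i ∈ A, f 𝕜 i v • x 𝕜 i) k = if k ∈ A then co 𝕜 v k else 0 := by
  rw [co_sum]; rfl

/-! ### The basis is a Schauder basis -/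

theorem dense_span : (Submodule.span 𝕜 (Set.range (x 𝕜))).topologicalClosure = ⊤ := by
  rw [eq_top_iff]
  rintro v -
  show v ∈ closure (Submodule.span 𝕜 (Set.range (x 𝕜)) : Set (X 𝕜))
  rw [Metric.mem_closure_iff]
  intro ε hε
  have h1 : (v : Amb 𝕜) ∈ closure (Submodule.span 𝕜 (Set.range (xv 𝕜)) : Set (Amb 𝕜)) := v.2
  rw [Metric.mem_closure_iff] at h1
  obtain ⟨w, hw, hd⟩ := h1 ε hε
  have h2 : w ∈ X 𝕜 := Submodule.le_topologicalClosure _ hw
  refine ⟨⟨w, h2⟩, ?_, hd⟩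
  have h3 : Submodule.span 𝕜 (Set.range (xv 𝕜)) =
      (Submodule.span 𝕜 (Set.range (x 𝕜))).map (X 𝕜).subtype := by
    rw [Submodule.map_span]
    congr 1
    ext y
    simp only [Set.mem_range, Set.mem_image]
    constructor
    · rintro ⟨n, rfl⟩
      exact ⟨x 𝕜 n, ⟨n, rfl⟩, rfl⟩
    · rintro ⟨_, ⟨n, rfl⟩, rfl⟩
      exact ⟨n, rfl⟩
  have hw' : w ∈ Submodule.span 𝕜 (Set.range (xv 𝕜)) := hw
  rw [h3, Submodule.mem_map] at hw'
  obtain ⟨y, hy, hyw⟩ := hw'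
  have : (⟨w, h2⟩ : X 𝕜) = y := Subtype.ext hyw.symm
  rw [this]; exact hy

theorem total (v : X 𝕜) (h : ∀ n, f 𝕜 n v = 0) : v = 0 := by
  have h1 : co 𝕜 v = 0 := funext h
  have h2 : p1 𝕜 (v : Amb 𝕜) = 0 := by
    apply lp.ext
    funext k
    exact h k
  apply norm_le_zero_iff.mp
  apply norm_le
  · rw [h2, norm_zero]
  · intro j P _
    rw [h1]
    have : ∀ q, item j q (0 : ℕ → 𝕜) = 0 := by
      intro q; unfold item; split_ifs <;> simp
    simp [this]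

theorem x_norm_lower (n : ℕ) : 1 ≤ ‖x 𝕜 n‖ := by
  have := co_le 𝕜 (x 𝕜 n) n
  rw [co_x, if_pos rfl, norm_one] at this
  exact this

theorem x_norm_upper (n : ℕ) : ‖x 𝕜 n‖ ≤ 2 := by
  have hx : x 𝕜 n = ∑ i ∈ {n}, (1 : 𝕜) • x 𝕜 i := by simp
  apply norm_le
  · have h1 : ‖p1 𝕜 ((x 𝕜 n : X 𝕜) : Amb 𝕜)‖ ^ 2 = 1 := by
      rw [hx, norm_p1_sum 𝕜 {n} (fun _ => (1 : 𝕜))]; simp
    nlinarith [norm_nonneg (p1 𝕜 ((x 𝕜 n : X 𝕜) : Amb 𝕜))]
  · intro j P _
    have h1 := sum_items_le (j := j) (y := co 𝕜 (x 𝕜 n)) (A := {n}) (P := P) zero_le_one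
      (fun k hk => by
        have : k ≠ n := by simpa using hk
        rw [co_x, if_neg this]) (fun k => by rw [co_x]; split_ifs <;> simp)
    have h2 : (min P.card (({n} : Finset ℕ).filter (fun k => nn (j + 1) ≤ k)).card : ℕ) ≤ 1 :=
      (min_le_right _ _).trans ((Finset.card_filter_le _ _).trans (by simp))
    have h3 : ((min P.card (({n} : Finset ℕ).filter
      (fun k => nn (j + 1) ≤ k)).card : ℕ) : ℝ) ≤ 1 := by exact_mod_cast h2
    have h4 : (1 : ℝ) ≤ s j := by exact_mod_cast s_pos _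
    have h5 : 1 / (s j : ℝ) ≤ 1 := by
      rw [div_le_one (by linarith)]; exact h4
    calc 1 / (s j : ℝ) * ∑ q ∈ P, ‖item j q (co 𝕜 (x 𝕜 n))‖
        ≤ 1 * 2 := by
          apply mul_le_mul h5 _ (Finset.sum_nonneg (fun _ _ => norm_nonneg _)) zero_le_one
          linarith
      _ = 2 := by norm_num

theorem f_norm (n : ℕ) : ‖f 𝕜 n‖ ≤ 1 :=
  ContinuousLinearMap.opNorm_le_bound _ zero_le_one (fun v => by
    rw [one_mul]; exact co_le 𝕜 v n)

/-- Items of a projection, general estimate. -/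
theorem item_proj_le {j q : ℕ} {A : Finset ℕ} {v : X 𝕜} {α : ℝ} (hα : 0 ≤ α)
    (hsplit : ∀ i i', i ∈ A → i' ∉ A → ‖co 𝕜 v i'‖ ≤ α) :
    ‖item j q (co 𝕜 (∑ i ∈ A, f 𝕜 i v • x 𝕜 i))‖ ≤ ‖item j q (co 𝕜 v)‖ +
      if q ∈ (A.filter (fun i => nn (j + 1) ≤ i)).image (own j) then α else 0 := by
  by_cases hq : q ∈ (A.filter (fun i => nn (j + 1) ≤ i)).image (own j)
  · rw [if_pos hq]
    unfold item
    by_cases h : q < kk j
    · simp only [h, if_true, co_proj]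
      by_cases h0 : nn (j + 1) + 2 * q ∈ A <;> by_cases h1 : nn (j + 1) + 2 * q + 1 ∈ A
      · simp only [h0, h1, if_true]; linarith
      · simp only [h0, h1, if_true, if_false, add_zero]
        have h2 := hsplit _ _ h0 h1
        have h3 := norm_sub_le (co 𝕜 v (nn (j + 1) + 2 * q) + co 𝕜 v (nn (j + 1) + 2 * q + 1))
          (co 𝕜 v (nn (j + 1) + 2 * q + 1))
        rw [add_sub_cancel_right] at h3
        linarith
      · simp only [h0, h1, if_true, if_false, zero_add]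
        have h2 := hsplit _ _ h1 h0
        have h3 := norm_sub_le (co 𝕜 v (nn (j + 1) + 2 * q) + co 𝕜 v (nn (j + 1) + 2 * q + 1))
          (co 𝕜 v (nn (j + 1) + 2 * q))
        rw [add_sub_cancel_left] at h3
        linarith
      · simp only [h0, h1, if_false, add_zero, norm_zero]
        positivity
    · simp only [h, if_false, co_proj]
      split_ifs
      · linarith
      · rw [norm_zero]; positivity
  · rw [if_neg hq, add_zero]
    rw [item_eq_zero (A := A) (fun i hi => by rw [co_proj, if_neg hi]) hq, norm_zero]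
    exact norm_nonneg _

/-- Sum of items of a projection. -/
theorem sum_items_proj_le {j : ℕ} {A P : Finset ℕ} (hP : P.card ≤ kk j) {v : X 𝕜} {α : ℝ}
    (hα : 0 ≤ α) (hsplit : ∀ i i', i ∈ A → i' ∉ A → ‖co 𝕜 v i'‖ ≤ α) :
    1 / (s j : ℝ) * ∑ q ∈ P, ‖item j q (co 𝕜 (∑ i ∈ A, f 𝕜 i v • x 𝕜 i))‖ ≤ ‖v‖ +
      1 / (s j : ℝ) * ((min (kk j) A.card : ℕ) * α) := by
  classical
  set O := (A.filter (fun i => nn (j + 1) ≤ i)).image (own j) with hO
  have h1 : ∑ q ∈ P, ‖item j q (co 𝕜 (∑ i ∈ A, f 𝕜 i v • x 𝕜 i))‖ ≤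
      ∑ q ∈ P, ‖item j q (co 𝕜 v)‖ + (min (kk j) A.card : ℕ) * α := by
    calc ∑ q ∈ P, ‖item j q (co 𝕜 (∑ i ∈ A, f 𝕜 i v • x 𝕜 i))‖
        ≤ ∑ q ∈ P, (‖item j q (co 𝕜 v)‖ + if q ∈ O then α else 0) :=
          Finset.sum_le_sum (fun q _ => item_proj_le 𝕜 hα hsplit)
      _ = ∑ q ∈ P, ‖item j q (co 𝕜 v)‖ + (P ∩ O).card * α := by
          rw [Finset.sum_add_distrib, Finset.sum_ite_mem, Finset.sum_const, nsmul_eq_mul]
      _ ≤ _ := by
          have h2 : (P ∩ O).card ≤ min (kk j) A.card := by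
            apply le_min
            · exact (Finset.card_le_card Finset.inter_subset_left).trans hP
            · exact (Finset.card_le_card Finset.inter_subset_right).trans
                (Finset.card_image_le.trans (Finset.card_filter_le _ _))
          have h3 : ((P ∩ O).card : ℝ) ≤ (min (kk j) A.card : ℕ) := by exact_mod_cast h2
          have := mul_le_mul_of_nonneg_right h3 hα
          linarith
  calc 1 / (s j : ℝ) * ∑ q ∈ P, ‖item j q (co 𝕜 (∑ i ∈ A, f 𝕜 i v • x 𝕜 i))‖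
      ≤ 1 / (s j : ℝ) * (∑ q ∈ P, ‖item j q (co 𝕜 v)‖ + (min (kk j) A.card : ℕ) * α) :=
        mul_le_mul_of_nonneg_left h1 (by positivity)
    _ ≤ _ := by
        rw [mul_add]
        have := le_norm 𝕜 v hP
        linarith

theorem partial_sums_le (m : ℕ) (v : X 𝕜) :
    ‖∑ i ∈ Finset.range m, f 𝕜 i v • x 𝕜 i‖ ≤ 2 * ‖v‖ := by
  classical
  apply norm_le
  · refine (norm_p1_proj 𝕜 _ v).trans ?_
    linarith [norm_nonneg v]
  · intro j P hP
    have h1 : ∑ q ∈ P, ‖item j q (co 𝕜 (∑ i ∈ Finset.range m, f 𝕜 i v • x 𝕜 i))‖ ≤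
        ∑ q ∈ P, (‖item j q (co 𝕜 v)‖ + if q = own j (m - 1) then ‖v‖ else 0) := by
      refine Finset.sum_le_sum (fun q _ => ?_)
      by_cases hqo : q = own j (m - 1)
      · rw [if_pos hqo]
        unfold item
        by_cases h : q < kk j
        · simp only [h, if_true, co_proj, Finset.mem_range]
          by_cases h0 : nn (j + 1) + 2 * q < m <;> by_cases h1 : nn (j + 1) + 2 * q + 1 < m
          · simp only [h0, h1, if_true]; linarith [norm_nonneg v]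
          · simp only [h0, h1, if_true, if_false, add_zero]
            have := co_le 𝕜 v (nn (j + 1) + 2 * q)
            linarith [norm_nonneg (co 𝕜 v (nn (j + 1) + 2 * q) + co 𝕜 v (nn (j + 1) + 2 * q + 1))]
          · omega
          · simp only [h0, h1, if_false, add_zero, norm_zero]
            positivity
        · simp only [h, if_false, co_proj]
          split_ifs
          · linarith [norm_nonneg v]
          · rw [norm_zero]; positivity
      · rw [if_neg hqo, add_zero]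
        unfold item
        by_cases h : q < kk j
        · simp only [h, if_true, co_proj, Finset.mem_range]
          by_cases h0 : nn (j + 1) + 2 * q < m <;> by_cases h1 : nn (j + 1) + 2 * q + 1 < m
          · simp only [h0, h1, if_true]; exact le_rfl
          · exfalso
            apply hqo
            have : m - 1 = nn (j + 1) + 2 * q := by omega
            rw [this, own_pair0 h]
          · omega
          · simp only [h0, h1, if_false, add_zero, norm_zero]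
            positivity
        · simp only [h, if_false, co_proj]
          split_ifs
          · exact le_rfl
          · rw [norm_zero]; positivity
    have h2 : ∑ q ∈ P, (if q = own j (m - 1) then ‖v‖ else 0) ≤ ‖v‖ := by
      rw [Finset.sum_ite_eq']
      split_ifs
      · exact le_rfl
      · exact norm_nonneg _
    rw [Finset.sum_add_distrib] at h1
    have h3 := le_norm 𝕜 v hP
    have h4 : (1 : ℝ) ≤ s j := by exact_mod_cast s_pos _
    have h5 : 1 / (s j : ℝ) ≤ 1 := by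
      rw [div_le_one (by linarith)]; exact h4
    have h6 : 0 ≤ 1 / (s j : ℝ) := by positivity
    calc 1 / (s j : ℝ) * ∑ q ∈ P, ‖item j q (co 𝕜 (∑ i ∈ Finset.range m, f 𝕜 i v • x 𝕜 i))‖
        ≤ 1 / (s j : ℝ) * (∑ q ∈ P, ‖item j q (co 𝕜 v)‖ + ‖v‖) :=
          mul_le_mul_of_nonneg_left (by linarith) h6
      _ = 1 / (s j : ℝ) * ∑ q ∈ P, ‖item j q (co 𝕜 v)‖ + 1 / (s j : ℝ) * ‖v‖ := mul_add _ _ _
      _ ≤ ‖v‖ + 1 * ‖v‖ := add_le_add h3 (mul_le_mul_of_nonneg_right h5 (norm_nonneg _))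
      _ = 2 * ‖v‖ := by ring

theorem isSchauderBasis : IsSchauderBasis (x 𝕜) (f 𝕜) := by
  refine ⟨dense_span 𝕜, ?_, total 𝕜, ⟨1, 2, one_pos, fun n => ⟨x_norm_lower 𝕜 n, x_norm_upper 𝕜 n,
    (f_norm 𝕜 n).trans (by norm_num)⟩⟩, ⟨2, partial_sums_le 𝕜⟩⟩
  intro i j
  rw [f_apply, co_x]

/-! ### Quasi-greediness -/

theorem quasiGreedy : IsQuasiGreedyAlong nn (x 𝕜) (f 𝕜) := by
  classical
  refine ⟨2, ?_⟩
  intro v l A hA hG
  have hnl : 0 < nn l := Nat.mul_pos (s_pos l) (s_pos l)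
  have hne : A.Nonempty := by
    rw [← Finset.card_pos, hA]; exact hnl
  obtain ⟨a, haA, ha⟩ := Finset.exists_min_image A (fun i => ‖co 𝕜 v i‖) hne
  set α := ‖co 𝕜 v a‖ with hα
  have hα0 : 0 ≤ α := norm_nonneg _
  have hsplit : ∀ i i', i ∈ A → i' ∉ A → ‖co 𝕜 v i'‖ ≤ α := fun _ i' _ hi' => hG a haA i' hi'
  -- size of `α`
  have hsα : (s l : ℝ) * α ≤ ‖v‖ := by
    apply le_of_sq_le_sq _ (norm_nonneg _)
    calc ((s l : ℝ) * α) ^ 2 = (A.card : ℝ) * α ^ 2 := by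
          rw [hA]; unfold nn; push_cast; ring
      _ = ∑ i ∈ A, α ^ 2 := by rw [Finset.sum_const, nsmul_eq_mul]
      _ ≤ ∑ i ∈ A, ‖co 𝕜 v i‖ ^ 2 :=
          Finset.sum_le_sum (fun i hi => pow_le_pow_left₀ hα0 (ha i hi) 2)
      _ ≤ ‖v‖ ^ 2 := sum_sq_le 𝕜 A v
  apply norm_le
  · refine (norm_p1_proj 𝕜 _ v).trans ?_
    linarith [norm_nonneg v]
  · intro j P hP
    refine (sum_items_proj_le 𝕜 hP hα0 hsplit).trans ?_
    have hs : (0 : ℝ) < s j := by exact_mod_cast s_pos j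
    have key : 1 / (s j : ℝ) * ((min (kk j) A.card : ℕ) * α) ≤ ‖v‖ := by
      refine le_trans ?_ hsα
      rcases le_or_gt l j with hlj | hlj
      · have h1 : ((min (kk j) A.card : ℕ) : ℝ) ≤ (s j : ℝ) * s l := by
          have : min (kk j) A.card ≤ s j * s l := by
            refine (min_le_right _ _).trans ?_
            rw [hA]
            exact Nat.mul_le_mul_right _ (s_mono hlj)
          exact_mod_cast this
        calc 1 / (s j : ℝ) * ((min (kk j) A.card : ℕ) * α)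
            ≤ 1 / (s j : ℝ) * (((s j : ℝ) * s l) * α) := by gcongr
          _ = (s l : ℝ) * α := by field_simp
      · have h1 : ((min (kk j) A.card : ℕ) : ℝ) ≤ (s j : ℝ) * s l := by
          have : min (kk j) A.card ≤ s j * s l := by
            refine (min_le_left _ _).trans ?_
            exact Nat.mul_le_mul_left _ (s_mono hlj)
          exact_mod_cast this
        calc 1 / (s j : ℝ) * ((min (kk j) A.card : ℕ) * α)
            ≤ 1 / (s j : ℝ) * (((s j : ℝ) * s l) * α) := by gcongr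
          _ = (s l : ℝ) * α := by field_simp
    linarith

/-! ### Order-conservativeness -/

theorem orderConservative : IsOrderConservativeAlong 𝕜 nn (x 𝕜) := by
  classical
  refine ⟨2, ?_⟩
  intro A B ε δ l hAB hA hB hε hδ
  have hp1 : ‖p1 𝕜 ((∑ i ∈ A, ε i • x 𝕜 i : X 𝕜) : Amb 𝕜)‖ ≤ ‖∑ i ∈ B, δ i • x 𝕜 i‖ := by
    refine le_trans ?_ (p1_le 𝕜 _)
    apply le_of_sq_le_sq _ (norm_nonneg _)
    rw [norm_p1_sum, norm_p1_sum]
    simp only [hε, hδ, one_pow, Finset.sum_const, nsmul_eq_mul, mul_one]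
    rw [hAB]
  apply norm_le
  · linarith [norm_nonneg (∑ i ∈ B, δ i • x 𝕜 i)]
  · intro j P hP
    have h1 := sum_items_le (j := j) (y := co 𝕜 (∑ i ∈ A, ε i • x 𝕜 i)) (A := A) (P := P)
      zero_le_one (fun i hi => by rw [co_sum, if_neg hi])
      (fun i => by rw [co_sum]; split_ifs <;> simp [hε])
    have hs : (0 : ℝ) < s j := by exact_mod_cast s_pos j
    rcases Nat.lt_or_ge l (j + 2) with hl | hl
    · -- nothing above `n_{j+1}`
      have h2 : A.filter (fun i => nn (j + 1) ≤ i) = ∅ := by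
        apply Finset.filter_eq_empty_iff.mpr
        intro i hi h
        have h3 := hA i hi
        have h4 : nn l ≤ nn (j + 1) := nn_mono (by omega)
        omega
      rw [h2] at h1
      simp only [Finset.card_empty, Nat.min_zero, Nat.cast_zero, mul_zero] at h1
      have h5 : 1 / (s j : ℝ) * ∑ q ∈ P, ‖item j q (co 𝕜 (∑ i ∈ A, ε i • x 𝕜 i))‖ ≤
          1 / (s j : ℝ) * 0 := mul_le_mul_of_nonneg_left h1 (by positivity)
      linarith [norm_nonneg (∑ i ∈ B, δ i • x 𝕜 i)]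
    · have hnl : nn (j + 1) + 2 * kk j ≤ nn l := (nn_gap j).trans (nn_mono hl)
      obtain ⟨B', hB', hcard⟩ := Finset.exists_subset_card_eq (min_le_right (kk j) B.card)
      have hinj : Set.InjOn (own j) (B' : Set ℕ) := by
        intro a ha b hb hab
        have h2 := hB a (hB' ha)
        have h3 := hB b (hB' hb)
        unfold own at hab
        rw [if_neg (by omega), if_neg (by omega)] at hab
        omega
      have hc : (B'.image (own j)).card = B'.card := Finset.card_image_of_injOn hinj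
      have h4 := le_norm 𝕜 (∑ i ∈ B, δ i • x 𝕜 i) (j := j) (P := B'.image (own j))
        (by rw [hc, hcard]; exact min_le_left _ _)
      rw [Finset.sum_image hinj] at h4
      have h5 : ∀ b ∈ B', ‖item j (own j b) (co 𝕜 (∑ i ∈ B, δ i • x 𝕜 i))‖ = 1 := by
        intro b hb
        have h2 := hB b (hB' hb)
        have h6 : own j b = b - nn (j + 1) - kk j := by
          unfold own; rw [if_neg (by omega)]
        have h7 : ¬ own j b < kk j := by rw [h6]; omega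
        have h8 : nn (j + 1) + kk j + own j b = b := by rw [h6]; omega
        unfold item
        rw [if_neg h7, h8, co_sum, if_pos (hB' hb), hδ]
      rw [Finset.sum_congr rfl h5, Finset.sum_const, nsmul_eq_mul, mul_one, hcard] at h4
      have h6 : ((min P.card (A.filter (fun i => nn (j + 1) ≤ i)).card : ℕ) : ℝ) ≤
          (min (kk j) B.card : ℕ) := by
        have : min P.card (A.filter (fun i => nn (j + 1) ≤ i)).card ≤ min (kk j) B.card :=
          min_le_min hP ((Finset.card_filter_le _ _).trans hAB.le)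
        exact_mod_cast this
      calc 1 / (s j : ℝ) * ∑ q ∈ P, ‖item j q (co 𝕜 (∑ i ∈ A, ε i • x 𝕜 i))‖
          ≤ 1 / (s j : ℝ) * (2 * 1 * (min (kk j) B.card : ℕ)) := by
            apply mul_le_mul_of_nonneg_left _ (by positivity)
            linarith
        _ = 2 * (1 / (s j : ℝ) * (min (kk j) B.card : ℕ)) := by ring
        _ ≤ _ := by linarith

/-! ### Not partially greedy -/

/-- The coefficients of the test vector. -/
def cf (j i : ℕ) : 𝕜 :=
  if i < nn (j + 1) then 1 else if (i - nn (j + 1)) % 2 = 0 then 1 else -1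

theorem cf_norm (j i : ℕ) : ‖(cf 𝕜 j i : 𝕜)‖ = 1 := by
  unfold cf; split_ifs <;> simp

/-- The support of the test vector. -/
def T (j : ℕ) : Finset ℕ :=
  Finset.range (nn (j + 1) - kk j) ∪ Finset.Ico (nn (j + 1)) (nn (j + 1) + 2 * kk j)

/-- The greedy set. -/
def GS (j : ℕ) : Finset ℕ :=
  Finset.range (nn (j + 1) - kk j) ∪ (Finset.range (kk j)).image (fun q => nn (j + 1) + 2 * q)

theorem card_GS (j : ℕ) : (GS j).card = nn (j + 1) := by
  unfold GS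
  rw [Finset.card_union_of_disjoint, Finset.card_range, Finset.card_image_of_injective,
    Finset.card_range]
  · have := kk_le j; omega
  · intro a b hab; simp only at hab; omega
  · rw [Finset.disjoint_left]
    intro a ha hb
    rw [Finset.mem_range] at ha
    obtain ⟨q, _, rfl⟩ := Finset.mem_image.mp hb
    omega

theorem GS_sub (j : ℕ) : GS j ⊆ T j := by
  unfold GS T
  apply Finset.union_subset_union le_rfl
  intro a ha
  obtain ⟨q, hq, rfl⟩ := Finset.mem_image.mp ha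
  rw [Finset.mem_range] at hq
  rw [Finset.mem_Ico]; omega

/-- The test vector. -/
noncomputable def tv (j : ℕ) : X 𝕜 := ∑ i ∈ T j, (cf 𝕜 j i : 𝕜) • x 𝕜 i

theorem co_tv (j k : ℕ) : co 𝕜 (tv 𝕜 j) k = if k ∈ T j then cf 𝕜 j k else 0 := co_sum 𝕜 _ _ _

theorem greedy_tv (j : ℕ) : IsGreedySet (f 𝕜) (tv 𝕜 j) (GS j) := by
  intro i hi k _
  rw [f_apply, f_apply, co_tv, co_tv, if_pos (GS_sub j hi), cf_norm]
  split_ifs
  · rw [cf_norm]
  · simp

theorem co_sub (v w : X 𝕜) (k : ℕ) : co 𝕜 (v - w) k = co 𝕜 v k - co 𝕜 w k := by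
  rw [← f_apply, ← f_apply, ← f_apply, map_sub]

theorem tail_upper (j : ℕ) :
    ‖tv 𝕜 j - ∑ i ∈ Finset.range (nn (j + 1)), f 𝕜 i (tv 𝕜 j) • x 𝕜 i‖ ≤
      2 * Real.sqrt (2 * kk j) := by
  classical
  have hrep : tv 𝕜 j - ∑ i ∈ Finset.range (nn (j + 1)), f 𝕜 i (tv 𝕜 j) • x 𝕜 i =
      ∑ i ∈ Finset.Ico (nn (j + 1)) (nn (j + 1) + 2 * kk j), (cf 𝕜 j i : 𝕜) • x 𝕜 i := by
    have h1 : ∀ v : X 𝕜, (∀ n, co 𝕜 v n = 0) → v = 0 := total 𝕜
    rw [← sub_eq_zero]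
    apply h1
    intro n
    rw [co_sub, co_sub, co_proj, co_tv, co_sum]
    have h2 : n ∈ T j ↔ (n < nn (j + 1) - kk j ∨
        (nn (j + 1) ≤ n ∧ n < nn (j + 1) + 2 * kk j)) := by
      unfold T; rw [Finset.mem_union, Finset.mem_range, Finset.mem_Ico]
    simp only [Finset.mem_range, Finset.mem_Ico]
    by_cases h3 : n < nn (j + 1)
    · have h4 : ¬ (nn (j + 1) ≤ n ∧ n < nn (j + 1) + 2 * kk j) := by omega
      simp [h3, h4]
    · simp only [h3, if_false, sub_zero]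
      by_cases h4 : nn (j + 1) ≤ n ∧ n < nn (j + 1) + 2 * kk j
      · rw [if_pos (h2.mpr (Or.inr h4)), if_pos h4, sub_self]
      · rw [if_neg (by rw [h2]; omega), if_neg h4, sub_self]
  rw [hrep]
  set I := Finset.Ico (nn (j + 1)) (nn (j + 1) + 2 * kk j) with hI
  have hIc : I.card = 2 * kk j := by rw [hI, Nat.card_Ico]; omega
  have hsq : (0 : ℝ) ≤ Real.sqrt (2 * kk j) := Real.sqrt_nonneg _
  apply norm_le
  · have h1 : ‖p1 𝕜 ((∑ i ∈ I, (cf 𝕜 j i : 𝕜) • x 𝕜 i : X 𝕜) : Amb 𝕜)‖ ≤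
        Real.sqrt (2 * kk j) := by
      apply Real.le_sqrt_of_sq_le
      rw [norm_p1_sum]
      simp only [cf_norm, one_pow, Finset.sum_const, nsmul_eq_mul, mul_one, hIc]
      push_cast; exact le_rfl
    linarith
  · intro i P hP
    have h1 := sum_items_le (j := i) (y := co 𝕜 (∑ i ∈ I, (cf 𝕜 j i : 𝕜) • x 𝕜 i)) (A := I) (P := P)
      zero_le_one (fun i hi => by rw [co_sum, if_neg hi])
      (fun i => by rw [co_sum]; split_ifs <;> simp [cf_norm])
    have hs : (0 : ℝ) < s i := by exact_mod_cast s_pos i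
    rcases Nat.lt_trichotomy i j with hij | hij | hij
    · -- lower levels
      have h2 : ((min P.card (I.filter (fun k => nn (i + 1) ≤ k)).card : ℕ) : ℝ) ≤
          (s i : ℝ) * s j := by
        have : min P.card (I.filter (fun k => nn (i + 1) ≤ k)).card ≤ s i * s j :=
          (min_le_left _ _).trans (hP.trans (Nat.mul_le_mul_left _ (s_mono hij)))
        exact_mod_cast this
      have h3 : (s j : ℝ) ≤ Real.sqrt (2 * kk j) := by
        apply Real.le_sqrt_of_sq_le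
        have : s j ^ 2 ≤ 2 * kk j := by
          unfold kk
          have := s_le_succ j
          nlinarith
        exact_mod_cast this
      calc 1 / (s i : ℝ) * ∑ q ∈ P, ‖item i q (co 𝕜 (∑ i ∈ I, (cf 𝕜 j i : 𝕜) • x 𝕜 i))‖
          ≤ 1 / (s i : ℝ) * (2 * 1 * ((s i : ℝ) * s j)) := by
            apply mul_le_mul_of_nonneg_left _ (by positivity)
            linarith
        _ = 2 * s j := by field_simp
        _ ≤ _ := by linarith
    · -- the level itself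
      subst hij
      have h2 : ∀ q, item i q (co 𝕜 (∑ k ∈ I, (cf 𝕜 i k : 𝕜) • x 𝕜 k)) = 0 := by
        intro q
        unfold item
        by_cases h : q < kk i
        · simp only [h, if_true]
          rw [co_sum, co_sum, if_pos (by rw [hI, Finset.mem_Ico]; omega),
            if_pos (by rw [hI, Finset.mem_Ico]; omega)]
          unfold cf
          rw [if_neg (by omega), if_pos (by omega), if_neg (by omega), if_neg (by omega)]
          ring
        · simp only [h, if_false]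
          rw [co_sum, if_neg (by rw [hI, Finset.mem_Ico]; omega)]
      simp only [h2, norm_zero, Finset.sum_const_zero, mul_zero]
      positivity
    · -- higher levels
      have h2 : I.filter (fun k => nn (i + 1) ≤ k) = ∅ := by
        apply Finset.filter_eq_empty_iff.mpr
        intro k hk h
        rw [hI, Finset.mem_Ico] at hk
        have h3 := nn_gap j
        have h4 : nn (j + 2) ≤ nn (i + 1) := nn_mono (by omega)
        omega
      rw [h2] at h1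
      simp only [Finset.card_empty, Nat.min_zero, Nat.cast_zero, mul_zero] at h1
      have h5 : 1 / (s i : ℝ) * ∑ q ∈ P, ‖item i q (co 𝕜 (∑ k ∈ I, (cf 𝕜 j k : 𝕜) • x 𝕜 k))‖ ≤
          1 / (s i : ℝ) * 0 := mul_le_mul_of_nonneg_left h1 (by positivity)
      linarith

theorem greedy_lower (j : ℕ) :
    (s (j + 1) : ℝ) ≤ ‖tv 𝕜 j - ∑ i ∈ GS j, f 𝕜 i (tv 𝕜 j) • x 𝕜 i‖ := by
  classical
  have h1 := le_norm 𝕜 (tv 𝕜 j - ∑ i ∈ GS j, f 𝕜 i (tv 𝕜 j) • x 𝕜 i) (j := j)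
    (P := Finset.range (kk j)) (by rw [Finset.card_range])
  have h2 : ∀ q ∈ Finset.range (kk j),
      ‖item j q (co 𝕜 (tv 𝕜 j - ∑ i ∈ GS j, f 𝕜 i (tv 𝕜 j) • x 𝕜 i))‖ = 1 := by
    intro q hq
    rw [Finset.mem_range] at hq
    have h3 : nn (j + 1) + 2 * q ∈ GS j := by
      unfold GS
      exact Finset.mem_union_right _ (Finset.mem_image.mpr ⟨q, Finset.mem_range.mpr hq, rfl⟩)
    have h4 : nn (j + 1) + 2 * q + 1 ∉ GS j := by
      unfold GS
      rw [Finset.mem_union, Finset.mem_range, Finset.mem_image]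
      rintro (h | ⟨r, _, hr⟩) <;> omega
    have h5 : nn (j + 1) + 2 * q + 1 ∈ T j := by
      unfold T
      rw [Finset.mem_union, Finset.mem_Ico]
      right; omega
    unfold item
    rw [if_pos hq, co_sub, co_sub, co_proj, co_proj, if_pos h3, if_neg h4, co_tv 𝕜 j (_ + 1),
      if_pos h5, sub_self, zero_add, sub_zero, cf_norm]
  rw [Finset.sum_congr rfl h2, Finset.sum_const, nsmul_eq_mul, mul_one, Finset.card_range] at h1
  have hs : (0 : ℝ) < s j := by exact_mod_cast s_pos j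
  have h6 : 1 / (s j : ℝ) * (kk j : ℕ) = s (j + 1) := by
    unfold kk; push_cast; field_simp
  linarith

theorem not_partiallyGreedy : ¬ IsPartiallyGreedyAlong nn (x 𝕜) (f 𝕜) := by
  rintro ⟨C, hC⟩
  have hC' : ∀ j : ℕ, ((j + 2 : ℕ) : ℝ) ≤ 8 * (|C| ^ 2) := by
    intro j
    have h1 := hC (tv 𝕜 j) (j + 1) (GS j) (card_GS j) (greedy_tv 𝕜 j)
    have h2 := (greedy_lower 𝕜 j).trans h1
    have h3 := tail_upper 𝕜 j
    have h4 : (s (j + 1) : ℝ) ≤ |C| * (2 * Real.sqrt (2 * kk j)) := by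
      refine h2.trans ?_
      refine (mul_le_mul_of_nonneg_right (le_abs_self C) (norm_nonneg _)).trans ?_
      exact mul_le_mul_of_nonneg_left h3 (abs_nonneg _)
    have hs : (0 : ℝ) < s j := by exact_mod_cast s_pos j
    have hs1 : (0 : ℝ) < s (j + 1) := by exact_mod_cast s_pos (j + 1)
    have h5 : (s (j + 1) : ℝ) ^ 2 ≤ |C| ^ 2 * 4 * (2 * kk j) := by
      calc (s (j + 1) : ℝ) ^ 2 ≤ (|C| * (2 * Real.sqrt (2 * kk j))) ^ 2 :=
            pow_le_pow_left₀ hs1.le h4 2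
        _ = |C| ^ 2 * 4 * (Real.sqrt (2 * kk j)) ^ 2 := by ring
        _ = _ := by rw [Real.sq_sqrt (by positivity)]
    have h6 : (kk j : ℝ) = s j * s (j + 1) := by unfold kk; push_cast; ring
    have h7 : (s (j + 1) : ℝ) = ((j + 2 : ℕ) : ℝ) * s j := by
      rw [s_succ]; push_cast; ring
    rw [h6] at h5
    have h8 : (s (j + 1) : ℝ) ≤ 8 * |C| ^ 2 * s j := by
      have : (s (j + 1) : ℝ) * s (j + 1) ≤ (8 * |C| ^ 2 * s j) * s (j + 1) := by nlinarith
      exact le_of_mul_le_mul_right this hs1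
    rw [h7] at h8
    exact le_of_mul_le_mul_right h8 hs
  obtain ⟨j, hj⟩ := exists_nat_gt (8 * (|C| ^ 2))
  have h1 := hC' j
  push_cast at h1
  linarith

theorem large_gaps (L : ℕ) : ∃ k, L * nn k < nn (k + 1) := by
  refine ⟨L, ?_⟩
  unfold nn
  rw [s_succ]
  have h1 := s_pos L
  have h2 : 0 < s L * s L := Nat.mul_pos h1 h1
  nlinarith

/-- There are a sequence with arbitrarily large gaps and a Schauder basis which is quasi-greedy and
order-conservative along it, but not partially greedy along it. -/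
theorem result (𝕜 : Type) [RCLike 𝕜] :
    ∃ n : ℕ → ℕ, StrictMono n ∧ 0 < n 0 ∧ (∀ L : ℕ, ∃ k, L * n k < n (k + 1)) ∧
      ∃ (E : Type) (_ : NormedAddCommGroup E) (_ : NormedSpace 𝕜 E) (_ : CompleteSpace E)
        (x : ℕ → E) (f : ℕ → StrongDual 𝕜 E),
        IsSchauderBasis x f ∧ IsQuasiGreedyAlong n x f ∧ IsOrderConservativeAlong 𝕜 n x ∧
          ¬ IsPartiallyGreedyAlong n x f :=
  ⟨nn, nn_strictMono, Nat.mul_pos (s_pos 0) (s_pos 0), large_gaps, X 𝕜, inferInstance,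
    inferInstance, inferInstance, x 𝕜, f 𝕜, isSchauderBasis 𝕜, quasiGreedy 𝕜, orderConservative 𝕜,
    not_partiallyGreedy 𝕜⟩

end Pool.Agent.Results.MP_6095cf_an.NotPartiallyGreedy
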